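import Mathlib
import Pool.Agent.R659.CConj2

/-!
MP_a5b0d0_al, Q1: there is one finite length-reducing confluent rewriting system whose monoid has
undecidable c-conjugacy problem.
-/

set_option autoImplicit false

namespace Pool.Agent.Results.MP_a5b0d0_al.CConjUndecidable

open Relation Pool.Agent.R659.CConj Pool.Agent.Helper247.Queue
open Pool.Agent.R659 (QFam.exists_family)

/-- One rewriting step of the system `R`. -/
def Step {A : Type} (R : List (List A × List A)) (x y : List A) : Prop :=
  ∃ p ∈ R, ∃ u v : List A, x = u ++ p.1 ++ v ∧ y = u ++ p.2 ++ v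

/-- The system is length-reducing. -/
def LengthReducing {A : Type} (R : List (List A × List A)) : Prop :=
  ∀ p ∈ R, p.2.length < p.1.length

/-- The system is confluent. -/
def Confluent {A : Type} (R : List (List A × List A)) : Prop :=
  ∀ u v w : List A, ReflTransGen (Step R) u v → ReflTransGen (Step R) u w →
    ∃ z, ReflTransGen (Step R) v z ∧ ReflTransGen (Step R) w z

/-- The relations of the presentation, as a relation on the free monoid. -/
def Rels {A : Type} (R : List (List A × List A)) (x y : FreeMonoid A) : Prop :=
  (FreeMonoid.toList x, FreeMonoid.toList y) ∈ R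

/-- The monoid presented by the system. -/
abbrev Mon {A : Type} (R : List (List A × List A)) : Type := (conGen (Rels R)).Quotient

/-- The element of the monoid represented by a word. -/
def cls {A : Type} (R : List (List A × List A)) (w : List A) : Mon R :=
  ((FreeMonoid.ofList w : FreeMonoid A) : (conGen (Rels R)).Quotient)

/-- `z` is a zero of the monoid. -/
def IsZero {M : Type} [Monoid M] (z : M) : Prop := ∀ m : M, m * z = z ∧ z * m = z

/-- The set `P(a)` of the definition of c-conjugacy: if the monoid has a zero `z` then it is `{z}`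
for `a = z` and the set of the `g` with `m * a * g = z → m * a = z` for all `m` if `a ≠ z`; it is
everything if there is no zero. -/
def PSet {M : Type} [Monoid M] (a : M) : Set M :=
  {g | ∀ z : M, IsZero z → (a = z → g = z) ∧ (a ≠ z → ∀ m : M, m * a * g = z → m * a = z)}

/-- c-conjugacy in a monoid. -/
def CConj {M : Type} [Monoid M] (a b : M) : Prop :=
  ∃ g ∈ PSet a, ∃ h ∈ PSet b, a * g = g * b ∧ b * h = h * a

section transfer

variable {N n : ℕ} {P : Fin N → Fin N → List (Fin N)} {K : Fin N} (e : Sg (Fin N) ≃ Fin n)
  {R : List (List (Fin n) × List (Fin n))}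

/-- the list `R` consists of the rules -/
def Is (P : Fin N → Fin N → List (Fin N)) (K : Fin N) (R : List (List (Fin n) × List (Fin n))) :
    Prop := ∀ p, p ∈ R ↔ Rule P K (p.1.map e.symm) (p.2.map e.symm)

variable {e}

theorem map_map_symm (x : List (Sg (Fin N))) : (x.map e).map e.symm = x := by simp
theorem symm_map_map (x : List (Fin n)) : (x.map e.symm).map e = x := by simp

theorem step_iff (hR : Is e P K R) (x y : List (Fin n)) :
    Step R x y ↔ Stp P K (x.map e.symm) (y.map e.symm) := by
  constructor
  · rintro ⟨p, hp, u, v, rfl, rfl⟩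
    exact ⟨u.map e.symm, v.map e.symm, _, _, (hR p).1 hp, by simp, by simp⟩
  · rintro ⟨u, v, l, r, h, h1, h2⟩
    refine ⟨(l.map e, r.map e), (hR _).2 (by simpa using h), u.map e, v.map e, ?_, ?_⟩
    · have := congrArg (List.map e) h1
      simpa using this
    · have := congrArg (List.map e) h2
      simpa using this

theorem steps_iff (hR : Is e P K R) (x y : List (Fin n)) :
    ReflTransGen (Step R) x y ↔ Stps P K (x.map e.symm) (y.map e.symm) := by
  constructor
  · intro h
    induction h with
    | refl => exact ReflTransGen.refl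
    | tail _ h ih => exact ih.tail ((step_iff hR _ _).1 h)
  · intro h
    have key : ∀ X Y, Stps P K X Y → ReflTransGen (Step R) (X.map e) (Y.map e) := by
      intro X Y h
      induction h with
      | refl => exact ReflTransGen.refl
      | tail _ h ih =>
        refine ih.tail ((step_iff hR _ _).2 ?_)
        rwa [map_map_symm, map_map_symm]
    have := key _ _ h
    rwa [symm_map_map, symm_map_map] at this

theorem step_cls (x y : List (Fin n)) (h : Step R x y) : cls R x = cls R y := by
  obtain ⟨p, hp, u, v, rfl, rfl⟩ := h
  have h1 : cls R p.1 = cls R p.2 := by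
    refine (Con.eq _).2 (ConGen.Rel.of _ _ ?_)
    exact hp
  have h2 : ∀ x y : List (Fin n), cls R (x ++ y) = cls R x * cls R y := fun _ _ => rfl
  rw [h2, h2, h2, h2, h1]

theorem steps_cls {x y : List (Fin n)} (h : ReflTransGen (Step R) x y) : cls R x = cls R y := by
  induction h with
  | refl => rfl
  | tail _ h ih => exact ih.trans (step_cls _ _ h)

/-- the congruence of acting equally on the stacks -/
def actCon (e : Sg (Fin N) ≃ Fin n) (P : Fin N → Fin N → List (Fin N)) (K : Fin N) :
    Con (FreeMonoid (Fin n)) where
  r x y := ∀ o, run P K o ((FreeMonoid.toList x).map e.symm) =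
    run P K o ((FreeMonoid.toList y).map e.symm)
  iseqv := ⟨fun _ _ => rfl, fun h o => (h o).symm, fun h h' o => (h o).trans (h' o)⟩
  mul' := by
    intro w x y z h h' o
    rw [FreeMonoid.toList_mul, FreeMonoid.toList_mul, List.map_append, List.map_append,
      run_append, run_append, h, h']

theorem cls_eq_iff (hR : Is e P K R) (x y : List (Fin n)) :
    cls R x = cls R y ↔ E P K (x.map e.symm) (y.map e.symm) := by
  constructor
  · intro h
    have h1 : conGen (Rels R) ≤ actCon e P K := by
      refine Con.conGen_le.2 ?_
      intro a b hab o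
      exact ((hR _).1 hab).run_eq o
    exact h1 ((Con.eq _).1 h) (some [])
  · intro h
    have h1 := nf_red (P := P) (K := K) (x.map e.symm)
    have h2 := nf_red (P := P) (K := K) (y.map e.symm)
    unfold E at h
    rw [h] at h1
    have e1 := map_map_symm (e := e) (word (run P K (some []) (y.map e.symm)))
    rw [← e1, ← steps_iff hR] at h1 h2
    exact (steps_cls h1).trans (steps_cls h2).symm

theorem cls_append (x y : List (Fin n)) : cls R (x ++ y) = cls R x * cls R y := rfl

theorem cls_surj (m : Mon R) : ∃ x, cls R x = m := by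
  induction m using Con.induction_on with
  | H x => exact ⟨FreeMonoid.toList x, rfl⟩

theorem isZero_iff (hR : Is e P K R) (m : Mon R) : IsZero m ↔ m = cls R [e .z] := by
  have hz : IsZero (cls R [e .z]) := by
    intro m
    obtain ⟨x, rfl⟩ := cls_surj m
    constructor
    · rw [← cls_append, cls_eq_iff hR]
      simp only [List.map_append, List.map_cons, Equiv.symm_apply_apply, List.map_nil]
      rw [E_zero_iff, run_append, run_cons, act_z, run_none]
    · rw [← cls_append, cls_eq_iff hR]
      simp only [List.map_append, List.map_cons, Equiv.symm_apply_apply, List.map_nil]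
      rw [E_zero_iff, run_append, run_cons, act_z, run_none, run_none]
  constructor
  · intro h
    exact (h (cls R [e .z])).2.symm.trans (hz m).1
  · rintro rfl
    exact hz

theorem mem_PSet_iff (hR : Is e P K R) {a : Mon R} (ha : a ≠ cls R [e .z]) (g : Mon R) :
    g ∈ PSet a ↔ ∀ m : Mon R, m * a * g = cls R [e .z] → m * a = cls R [e .z] := by
  constructor
  · intro h
    exact (h _ ((isZero_iff hR _).2 rfl)).2 ha
  · intro h z hz
    rw [isZero_iff hR] at hz
    subst hz
    exact ⟨fun h' => absurd h' ha, fun _ => h⟩

theorem cls_map_iff (hR : Is e P K R) (x y : List (Sg (Fin N))) :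
    cls R (x.map e) = cls R (y.map e) ↔ E P K x y := by
  rw [cls_eq_iff hR, map_map_symm, map_map_symm]

theorem cls_map_surj (m : Mon R) : ∃ x : List (Sg (Fin N)), cls R (x.map e) = m := by
  obtain ⟨x, rfl⟩ := cls_surj m
  exact ⟨x.map e.symm, by rw [symm_map_map]⟩

theorem cconj_iff (hR : Is e P K R) {w : List (Fin N)} (hw : w ≠ []) :
    CConj (cls R ((wa w).map e)) (cls R ((wb w).map e)) ↔ ¬ QReach P w [K] := by
  have hzero : cls R [e .z] = cls R ([Sg.z].map e) := rfl
  have ha : cls R ((wa w).map e) ≠ cls R [e .z] := by
    rw [hzero, Ne, cls_map_iff hR]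
    exact wa_ne w
  constructor
  · rintro ⟨g, hg, h, -, h1, -⟩ hq
    obtain ⟨x, rfl⟩ := cls_map_surj (e := e) g
    rw [← cls_append, ← cls_append, ← List.map_append, ← List.map_append,
      cls_map_iff hR] at h1
    obtain ⟨m, hm1, hm2⟩ := not_conj hw hq x h1
    rw [mem_PSet_iff hR ha] at hg
    have := hg (cls R (m.map e))
    rw [← cls_append, ← cls_append, ← List.map_append, ← List.map_append, hzero,
      cls_map_iff hR, cls_map_iff hR] at this
    exact hm2 (this (by rw [List.append_assoc]; exact hm1))
  · intro hq
    have hb : cls R ((wb w).map e) ≠ cls R [e .z] := by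
      rw [hzero, Ne, cls_map_iff hR]
      exact wb_ne w hq
    refine ⟨cls R ([Sg.u].map e), ?_, cls R ((w.map Sg.A).map e), ?_, ?_, ?_⟩
    · rw [mem_PSet_iff hR ha]
      intro m
      obtain ⟨x, rfl⟩ := cls_map_surj (e := e) m
      rw [← cls_append, ← cls_append, ← List.map_append, ← List.map_append, hzero,
        cls_map_iff hR, cls_map_iff hR, List.append_assoc]
      exact conj_left hq x
    · rw [mem_PSet_iff hR hb]
      intro m
      obtain ⟨x, rfl⟩ := cls_map_surj (e := e) m
      rw [← cls_append, ← cls_append, ← List.map_append, ← List.map_append, hzero,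
        cls_map_iff hR, cls_map_iff hR, List.append_assoc]
      exact conj_right x
    · rw [← cls_append, ← cls_append, ← List.map_append, ← List.map_append]
      simp [wa, wb]
    · rw [← cls_append, ← cls_append, ← List.map_append, ← List.map_append]
      simp [wa, wb]

end transfer

theorem sg_finite (N : ℕ) : Finite (Sg (Fin N)) := by
  have hs : Function.Surjective (fun x : Fin 4 ⊕ (Fin N ⊕ (Fin N × Fin N)) => match x with
    | Sum.inl 0 => (Sg.f : Sg (Fin N))
    | Sum.inl 1 => Sg.g
    | Sum.inl 2 => Sg.z
    | Sum.inl 3 => Sg.u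
    | Sum.inr (Sum.inl a) => Sg.A a
    | Sum.inr (Sum.inr (a, b)) => Sg.T a b) := by
    rintro (_ | _ | _ | _ | a | ⟨a, b⟩)
    · exact ⟨Sum.inl 0, rfl⟩
    · exact ⟨Sum.inl 1, rfl⟩
    · exact ⟨Sum.inl 2, rfl⟩
    · exact ⟨Sum.inl 3, rfl⟩
    · exact ⟨Sum.inr (Sum.inl a), rfl⟩
    · exact ⟨Sum.inr (Sum.inr (a, b)), rfl⟩
  exact Finite.of_surjective _ hs

theorem rules_finite {N : ℕ} (P : Fin N → Fin N → List (Fin N)) (K : Fin N) :
    {p : List (Sg (Fin N)) × List (Sg (Fin N)) | Rule P K p.1 p.2}.Finite := by
  have := sg_finite N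
  have h : ((Set.range fun y : Fin N => (([.f, .f, .A y], [.A y, .f]) :
      List (Sg (Fin N)) × List (Sg (Fin N)))) ∪
      {([.f, .f, .u], [.u, .f])} ∪ {([.f, .g, .u], [.u, .g])} ∪
      (Set.range fun t : Fin N × Fin N × Fin N =>
        ([.f, .T t.1 t.2.1, .A t.2.2], [.A t.2.2, .T t.1 t.2.1])) ∪
      (Set.range fun t : Fin N × Fin N => ([.g, .A t.1, .A t.2], [.T t.1 t.2])) ∪
      {([.g, .A K, .u], [.z])} ∪
      (Set.range fun t : Fin N × Fin N => (List.replicate (P t.1 t.2).length .f ++
        [.T t.1 t.2, .u], (P t.1 t.2).map .A ++ [.u])) ∪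
      (Set.range fun s : Sg (Fin N) => ([s, .z], [.z])) ∪
      (Set.range fun s : Sg (Fin N) => ([.z, s], [.z]))).Finite := by
    refine Set.Finite.union ?_ (Set.finite_range _)
    refine Set.Finite.union ?_ (Set.finite_range _)
    refine Set.Finite.union ?_ (Set.finite_range _)
    refine Set.Finite.union ?_ (Set.finite_singleton _)
    refine Set.Finite.union ?_ (Set.finite_range _)
    refine Set.Finite.union ?_ (Set.finite_range _)
    refine Set.Finite.union ?_ (Set.finite_singleton _)
    refine Set.Finite.union ?_ (Set.finite_singleton _)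
    exact Set.finite_range _
  refine h.subset ?_
  rintro ⟨l, r⟩ hp
  have hp' : Rule P K l r := hp
  clear hp
  cases hp' with
  | ffA y => simp
  | ffu => simp
  | fgu => simp
  | fTA a b x => simp
  | gAA a b => simp
  | gKu => simp
  | fTu a b => refine Or.inl (Or.inl (Or.inr ⟨(a, b), rfl⟩))
  | sz s => refine Or.inl (Or.inr ⟨s, rfl⟩)
  | zs s => refine Or.inr ⟨s, rfl⟩

theorem exists_system {N : ℕ} (P : Fin N → Fin N → List (Fin N)) (K : Fin N) :
    ∃ (n : ℕ) (e : Sg (Fin N) ≃ Fin n) (R : List (List (Fin n) × List (Fin n))),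
      Is e P K R := by
  classical
  have := sg_finite N
  obtain ⟨n, ⟨e⟩⟩ := Finite.exists_equiv_fin (Sg (Fin N))
  have hinj : Function.Injective (fun p : List (Fin n) × List (Fin n) =>
      (p.1.map e.symm, p.2.map e.symm)) := by
    intro p q h
    simp only [Prod.mk.injEq] at h
    have hm := List.map_injective_iff.2 e.symm.injective
    exact Prod.ext (hm h.1) (hm h.2)
  have hfin : {p : List (Fin n) × List (Fin n) |
      Rule P K (p.1.map e.symm) (p.2.map e.symm)}.Finite :=
    (rules_finite P K).preimage hinj.injOn
  refine ⟨n, e, hfin.toFinset.toList, ?_⟩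
  intro p
  simp

/-- There is one finite, length-reducing, confluent rewriting system whose monoid has undecidable
c-conjugacy problem. -/
theorem result : ∃ (n : ℕ) (R : List (List (Fin n) × List (Fin n))),
    LengthReducing R ∧ Confluent R ∧
    ¬ ComputablePred fun p : List (Fin n) × List (Fin n) => CConj (cls R p.1) (cls R p.2) := by
  obtain ⟨N, P, K, w, hw, hP1, hP2, hw2, hnc⟩ := QFam.exists_family
  obtain ⟨n, e, R, hR⟩ := exists_system P K
  refine ⟨n, R, ?_, ?_, ?_⟩
  · intro p hp
    have := ((hR p).1 hp).len
    simpa using this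
  · intro a b c h1 h2
    rw [steps_iff hR] at h1 h2
    obtain ⟨d, h3, h4⟩ := confluent h1 h2
    refine ⟨d.map e, ?_, ?_⟩
    · rw [steps_iff hR, map_map_symm]; exact h3
    · rw [steps_iff hR, map_map_symm]; exact h4
  · intro hdec
    apply hnc
    have hcomp : Computable fun k : ℕ => ((wa (w k)).map e, (wb (w k)).map e) := by
      have h1 : Primrec (fun x : Fin N => e (.A x)) := Primrec.dom_finite _
      have h2 : Primrec (fun w : List (Fin N) => w.map fun x => e (.A x)) :=
        Primrec.list_map Primrec.id (h1.comp Primrec.snd).to₂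
      have h3 : Primrec (fun w : List (Fin N) => (wa w).map e) :=
        (Primrec.list_cons.comp (Primrec.const (e .u)) h2).of_eq fun w => by
          simp [wa, Function.comp_def]
      have h4 : Primrec (fun w : List (Fin N) => (wb w).map e) :=
        (Primrec.list_append.comp h2 (Primrec.const [e .u])).of_eq fun w => by
          simp [wb, Function.comp_def]
      exact (h3.pair h4).to_comp.comp hw
    obtain ⟨g, hg, hge⟩ := ComputablePred.computable_iff.1 hdec
    have h5 : ComputablePred fun k => ¬ QReach P (w k) [K] := by
      refine ComputablePred.computable_iff.2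
        ⟨fun k => g ((wa (w k)).map e, (wb (w k)).map e), hg.comp hcomp, ?_⟩
      funext k
      have h6 := congrFun hge ((wa (w k)).map e, (wb (w k)).map e)
      have h7 : w k ≠ [] := by
        intro h
        have := hw2 k
        rw [h] at this
        simp at this
      rw [cconj_iff hR h7] at h6
      exact h6
    have := h5.not
    refine this.of_eq fun k => ?_
    simp

end Pool.Agent.Results.MP_a5b0d0_al.CConjUndecidable
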